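import Pool.Agent.N353.PT.Stm

/-!
PT/DOM (helper281, project PT of helper353): a small almost dominating set in a tournament.
-/

set_option autoImplicit false

open Finset
open scoped Classical

namespace Pool.Agent.N281.PT.DOM

open Pool.Agent.N353.PT

/-- in a nonempty set some vertex has at most the average in-degree -/
theorem exists_low {V : Type} (T : V → V → Prop) (hT : Tour T) (N : Finset V) (hN : N.Nonempty) :
    ∃ x ∈ N, 2 * (N.filter fun y => T y x).card ≤ N.card := by
  refine exists_le_of_sum_le hN ?_
  have h1 : ∑ x ∈ N, (N.filter fun y => T y x).card = ∑ x ∈ N, (N.filter fun y => T x y).card := by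
    simp only [card_filter]
    rw [sum_comm]
  have h2 : ∑ x ∈ N, 2 * (N.filter fun y => T y x).card =
      ∑ x ∈ N, ((N.filter fun y => T y x).card + (N.filter fun y => T x y).card) := by
    rw [← mul_sum, sum_add_distrib, ← h1]
    ring
  rw [h2]
  refine sum_le_sum fun x _ => ?_
  rw [← card_union_of_disjoint]
  · exact card_le_card (union_subset (filter_subset _ _) (filter_subset _ _))
  · rw [disjoint_filter]
    intro y _ h3 h4
    by_cases hxy : y = x
    · subst hxy
      exact hT.1 _ h3
    · exact (hT.2 y x hxy).1 h3 h4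

theorem t_DOM : S_DOM := by
  intro V _ T hT U v c hv hc
  obtain ⟨n, rfl⟩ : ∃ n, c = n + 1 := ⟨c - 1, by omega⟩
  clear hc
  induction n with
  | zero =>
    refine ⟨{v}, v, by simpa using hv, mem_singleton_self v, by simp, mem_singleton_self v,
      ?_, ?_⟩
    · intro x hx hxv
      exact absurd (mem_singleton.1 hx) hxv
    · rw [Nat.zero_add, Nat.sub_self, pow_zero, one_mul]
      refine card_le_card ?_
      intro y hy
      rw [mem_filter] at hy
      unfold inN
      rw [mem_filter]
      exact ⟨mem_univ _, hy.2 v (mem_singleton_self v)⟩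
  | succ n ih =>
    obtain ⟨A, a, hA1, hA2, hA3, hA4, hA5, hA6⟩ := ih
    rw [Nat.add_sub_cancel] at hA6 ⊢
    obtain ⟨N, hNdef⟩ : ∃ N, N = (U \ A).filter fun y => ∀ x ∈ A, T y x := ⟨_, rfl⟩
    rw [← hNdef] at hA6
    rcases N.eq_empty_or_nonempty with hN | hN
    · refine ⟨A, a, hA1, hA2, by omega, hA4, hA5, ?_⟩
      rw [← hNdef, hN, card_empty, mul_zero]
      exact Nat.zero_le _
    · obtain ⟨x, hxN, hx⟩ := exists_low T hT N hN
      have hxN' := hxN
      rw [hNdef, mem_filter, mem_sdiff] at hxN'
      obtain ⟨⟨hxU, hxA⟩, hxT⟩ := hxN'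
      refine ⟨insert x A, x, ?_, mem_insert_of_mem hA2, ?_, mem_insert_self x A, ?_, ?_⟩
      · exact insert_subset hxU hA1
      · rw [card_insert_of_notMem hxA]
        omega
      · intro y hy hyx
        rcases mem_insert.1 hy with h | h
        · exact absurd h hyx
        · exact hxT y h
      · have hsub : ((U \ insert x A).filter fun y => ∀ z ∈ insert x A, T y z) ⊆
            N.filter fun y => T y x := by
          intro y hy
          rw [mem_filter, mem_sdiff] at hy
          obtain ⟨⟨hyU, hyA⟩, hyT⟩ := hy
          rw [mem_filter, hNdef, mem_filter, mem_sdiff]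
          exact ⟨⟨⟨hyU, fun h => hyA (mem_insert_of_mem h)⟩,
            fun z hz => hyT z (mem_insert_of_mem hz)⟩, hyT x (mem_insert_self x A)⟩
        calc 2 ^ (n + 1) * ((U \ insert x A).filter fun y => ∀ z ∈ insert x A, T y z).card
            ≤ 2 ^ (n + 1) * (N.filter fun y => T y x).card :=
              Nat.mul_le_mul_left _ (card_le_card hsub)
          _ = 2 ^ n * (2 * (N.filter fun y => T y x).card) := by ring
          _ ≤ 2 ^ n * N.card := Nat.mul_le_mul_left _ hx
          _ ≤ (inN T v).card := hA6

end Pool.Agent.N281.PT.DOM
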